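import Pool.Agent.R912.GD.Defs

/-! # Labels of subfields -/

open scoped ComplexConjugate Real

namespace R912.GD

/-- The number `exp (2 π i / d)`. -/
noncomputable abbrev zet (d : ℕ) : ℂ := Complex.exp (2 * π * Complex.I / d)

theorem zet_prim {d : ℕ} (hd : 0 < d) : IsPrimitiveRoot (zet d) d :=
  Complex.isPrimitiveRoot_exp d hd.ne'

theorem exists_hom {d : ℕ} (hd : 0 < d) (l : (ZMod d)ˣ) :
    ∃ s : IntermediateField.adjoin ℚ {zet d} →+* ℂ,
      ∀ z : IntermediateField.adjoin ℚ {zet d}, (z : ℂ) = zet d →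
      s z = zet d ^ (l : ZMod d).val := by
  have hp := zet_prim hd
  have : NeZero d := ⟨hd.ne'⟩
  have hint : IsIntegral ℚ (zet d) := (hp.isIntegral hd).tower_top
  have hcop : Nat.Coprime (l : ZMod d).val d := ZMod.val_coe_unit_coprime l
  have hmin : minpoly ℚ (zet d) = minpoly ℚ (zet d ^ (l : ZMod d).val) := by
    have h2 := hp.pow_of_coprime _ hcop
    rw [← Polynomial.cyclotomic_eq_minpoly_rat hp hd, ← Polynomial.cyclotomic_eq_minpoly_rat h2 hd]
  have hroot : Polynomial.aeval (zet d ^ (l : ZMod d).val)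
      (minpoly ℚ (IntermediateField.adjoin.powerBasis hint).gen) = 0 := by
    have e : minpoly ℚ (IntermediateField.adjoin.powerBasis hint).gen = minpoly ℚ (zet d) :=
      IntermediateField.minpoly_gen ℚ (zet d)
    rw [e, hmin]
    exact minpoly.aeval _ _
  refine ⟨((IntermediateField.adjoin.powerBasis hint).lift _ hroot).toRingHom, fun z hz => ?_⟩
  have h1 := (IntermediateField.adjoin.powerBasis hint).lift_gen _ hroot
  have h2 : z = (IntermediateField.adjoin.powerBasis hint).gen := by
    apply Subtype.ext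
    rw [IntermediateField.adjoin.powerBasis_gen, IntermediateField.AdjoinSimple.coe_gen]
    exact hz
  rw [h2]
  exact h1

theorem sub_label {F E : Type} [Field F] [Field E] [Algebra E F]
    (h : ∃ (d : ℕ) (_ : NeZero d) (φ : (ZMod d)ˣ → (F →+* ℂ)), IsLabel F d φ) :
    ∃ (d : ℕ) (_ : NeZero d) (φ : (ZMod d)ˣ → (E →+* ℂ)), IsLabel E d φ := by
  classical
  obtain ⟨d, hd, φ, hφ⟩ := h
  set j : E →+* ℂ := (φ 1).comp (algebraMap E F) with hj
  have hex : ∃ m : ℕ, 0 < m ∧ ∀ e : E, j e ∈ IntermediateField.adjoin ℚ {zet m} :=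
    ⟨d, Nat.pos_of_ne_zero hd.ne, fun e => hφ.conductor.1.2 _⟩
  obtain ⟨hn, hn2⟩ := Nat.find_spec hex
  set n := Nat.find hex with hndef
  have hnz : NeZero n := ⟨hn.ne'⟩
  choose s hs using fun l : (ZMod n)ˣ => exists_hom hn l
  let i : E →+* IntermediateField.adjoin ℚ {zet n} :=
    j.codRestrict (IntermediateField.adjoin ℚ {zet n}).toSubfield hn2
  refine ⟨n, hnz, fun l => if l = 1 then j else (s l).comp i, ⟨?_, ?_⟩, ?_⟩
  · refine ⟨hn, fun e => ?_⟩
    rw [if_pos rfl]
    exact hn2 e
  · rintro m ⟨hm, hm2⟩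
    refine Nat.find_min' hex ⟨hm, fun e => ?_⟩
    have := hm2 e
    rw [if_pos rfl] at this
    exact this
  · intro l
    by_cases hl : l = 1
    · refine ⟨(IntermediateField.adjoin ℚ {zet n}).val.toRingHom, fun z => ⟨fun hz => ?_, ?_⟩⟩
      · subst hl
        show (z : ℂ) = _
        rw [hz]
        by_cases hn1 : n = 1
        · have : zet n = 1 := by
            rw [hn1]
            simp [zet, Complex.exp_two_pi_mul_I]
          change zet n = zet n ^ _
          rw [this, one_pow]
        · have : Fact (1 < n) := ⟨by omega⟩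
          rw [Units.val_one, ZMod.val_one, pow_one]
      · intro f hf
        rw [if_pos hl]
        rw [if_pos rfl] at hf
        exact hf.symm
    · refine ⟨s l, fun z => ⟨hs l z, fun f hf => ?_⟩⟩
      rw [if_neg hl]
      rw [if_pos rfl] at hf
      show s l (i f) = s l z
      congr 1
      apply Subtype.ext
      exact hf.symm

end R912.GD
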