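import Pool.Agent.R912.GD.Norm
import Pool.Agent.R912.GD.Label

/-! # Triples consisting of Hodge classes -/

open scoped ComplexConjugate Real

namespace R912.GD

open Finset

variable {S : Set HdR}

theorem pi_pow_sum {J : Type} [Fintype J] (c : ℤ) :
    ((π : ℝ) : ℂ) ^ (∑ _j : J, c) = ∏ _j : J, ((π : ℝ) : ℂ) ^ c := by
  rw [Finset.sum_const, Finset.prod_const, nsmul_eq_mul, mul_comm, zpow_mul, zpow_natCast]

theorem exists_em {F : Type} [Field F] [NumberField F] [IsGalois ℚ F] (σ τ : F →+* ℂ) :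
    ∃ g : F ≃ₐ[ℚ] F, τ = em σ g := by
  obtain ⟨g, hg⟩ := NumberField.ComplexEmbedding.exists_comp_symm_eq_of_comp_eq (k := ℚ) σ τ
    (Subsingleton.elim _ _)
  exact ⟨g.symm, hg.symm⟩

theorem em_one {F : Type} [Field F] [NumberField F] (σ : F →+* ℂ) : em σ 1 = σ := by
  ext f
  rfl

theorem em_mul {F : Type} [Field F] [NumberField F] (σ : F →+* ℂ) (g h : F ≃ₐ[ℚ] F) :
    em (em σ g) h = em σ (g * h) := by
  ext f
  rfl

theorem all_of_one (hS : IsSystem S) {F : Type} [Field F] [NumberField F] (hF : IsGalois ℚ F)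
    (H : OnePeriod S F) {V : HdR} (hV : V ∈ S) {x : V.I → F} {c : ℤ} {P : (F →+* ℂ) → ℂ}
    (h : IsTriple V x (fun _ => c) P) (σ : F →+* ℂ) :
    IsAlgebraic ℚ (P σ / (π : ℂ) ^ c) := by
  classical
  have hpi : ((π : ℝ) : ℂ) ^ c ≠ 0 := zpow_ne_zero _ (by exact_mod_cast Real.pi_ne_zero)
  have h0 := core2 (Γ := F ≃ₐ[ℚ] F) (fun g => P (em σ g) / (π : ℂ) ^ c)
    (fun g => div_ne_zero (h.ne _) hpi) ?_ 1
  · rw [em_one] at h0
    exact h0
  · intro J _ _ s
    have h1 := tens_triple (fun _ : J => V) (fun j k => s j (x k)) (fun _ _ => c)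
      (fun j τ => P (em τ (s j))) fun j => twist_triple h (s j)
    obtain ⟨τ, hτ⟩ := H _ (hS.tens_mem J (fun _ => V) fun _ => hV) _ _ _ h1
    obtain ⟨g, hg⟩ := exists_em σ τ
    refine ⟨g, ?_⟩
    rw [pi_pow_sum, ← Finset.prod_div_distrib] at hτ
    convert hτ using 1
    refine Finset.prod_congr rfl fun j _ => ?_
    rw [hg, em_mul]

theorem weight_const (hS : IsSystem S) {F : Type} [Field F] [NumberField F] {V : HdR}
    (hV : V ∈ S) {x : V.I → F} {c : ℤ} {P : (F →+* ℂ) → ℂ}
    (h : IsTriple V x (fun _ => c) P) (σ : F →+* ℂ) : V.w = c + c :=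
  (hodge_conj hS hV h σ).symm

theorem pair_const (hS : IsSystem S) {F : Type} [Field F] [NumberField F] {V : HdR}
    (hV : V ∈ S) {x : V.I → F} {c : ℤ} {P : (F →+* ℂ) → ℂ}
    (h : IsTriple V x (fun _ => c) P) (σ : F →+* ℂ) :
    IsAlgebraic ℚ (P σ / (π : ℂ) ^ c * (P ((starRingEnd ℂ).comp σ) / (π : ℂ) ^ c)) := by
  have h1 := period_conj hS hV h σ
  have hpi : ((π : ℝ) : ℂ) ≠ 0 := by exact_mod_cast Real.pi_ne_zero
  rw [weight_const hS hV h σ, zpow_add₀ hpi] at h1
  convert h1 using 1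
  ring

theorem gal_fixed {F : Type} [Field F] [NumberField F] [IsGalois ℚ F]
    (K : Subgroup (F ≃ₐ[ℚ] F)) [K.Normal] : IsGalois ℚ (IntermediateField.fixedField K) := by
  have h : (IntermediateField.algebra' _ : Algebra ℚ (IntermediateField.fixedField K)) =
      DivisionRing.toRatAlgebra := Subsingleton.elim _ _
  rw [← h]
  infer_instance

theorem cyc_fixed {F : Type} [Field F] [NumberField F] [IsGalois ℚ F]
    (K : Subgroup (F ≃ₐ[ℚ] F)) [K.Normal] (hc : IsCyclic ((F ≃ₐ[ℚ] F) ⧸ K)) :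
    IsCyclic (IntermediateField.fixedField K ≃ₐ[ℚ] IntermediateField.fixedField K) := by
  have h : (IntermediateField.algebra' _ : Algebra ℚ (IntermediateField.fixedField K)) =
      DivisionRing.toRatAlgebra := Subsingleton.elim _ _
  rw [← h]
  exact isCyclic_of_surjective (IsGalois.normalAutEquivQuotient K)
    (IsGalois.normalAutEquivQuotient K).surjective

theorem cyc_quot {Γ : Type} [Group Γ] [Finite Γ] (χ : Γ →* ℂ) : IsCyclic (Γ ⧸ χ.ker) := by
  refine isCyclic_of_injective_ringHom (QuotientGroup.lift χ.ker χ le_rfl) ?_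
  intro x y
  induction x using QuotientGroup.induction_on with
  | H a =>
    induction y using QuotientGroup.induction_on with
    | H b =>
      intro hab
      have h1 : χ a = χ b := hab
      rw [QuotientGroup.eq, MonoidHom.mem_ker, map_mul, ← h1, ← map_mul, inv_mul_cancel, map_one]

theorem const_case (hS : IsSystem S) (Hyp : CyclicCase S)
    {F : Type} [Field F] [NumberField F] (hF : IsAbelianField F)
    (hlab : ∃ (d : ℕ) (_ : NeZero d) (φ : (ZMod d)ˣ → (F →+* ℂ)), IsLabel F d φ)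
    {V : HdR} (hV : V ∈ S) {x : V.I → F} {c : ℤ} {P : (F →+* ℂ) → ℂ}
    (h : IsTriple V x (fun _ => c) P) (σ : F →+* ℂ) :
    IsAlgebraic ℚ (P σ / (π : ℂ) ^ c) := by
  classical
  have hG := hF.1
  have hpi : ((π : ℝ) : ℂ) ^ c ≠ 0 := zpow_ne_zero _ (by exact_mod_cast Real.pi_ne_zero)
  obtain ⟨c0, hc0⟩ := exists_em σ ((starRingEnd ℂ).comp σ)
  have hconj : ∀ g : F ≃ₐ[ℚ] F, em σ (g * c0) = (starRingEnd ℂ).comp (em σ g) := by
    intro g
    rw [hF.2 g c0, ← em_mul, ← hc0]
    rfl
  have h0 := core (Γ := F ≃ₐ[ℚ] F) hF.2 c0 (fun g => P (em σ g) / (π : ℂ) ^ c)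
    (fun g => div_ne_zero (h.ne _) hpi) ?_ ?_ 1
  · rw [em_one] at h0
    exact h0
  · intro g
    rw [hconj g]
    exact pair_const hS hV h (em σ g)
  · intro χ hχ g
    obtain ⟨y, Q, hQ, hQ2⟩ := norm_triple h χ.ker (em σ g)
    have hgal : IsGalois ℚ (IntermediateField.fixedField χ.ker) := gal_fixed _
    have hcyc : IsCyclic (IntermediateField.fixedField χ.ker ≃ₐ[ℚ]
        IntermediateField.fixedField χ.ker) := cyc_fixed _ (cyc_quot χ)
    have him' : IsImaginary (IntermediateField.fixedField χ.ker) := by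
      intro τ
      by_contra hne
      push Not at hne
      apply hχ
      have hτ := NumberField.ComplexEmbedding.lift_comp_algebraMap F τ
      obtain ⟨k, hk⟩ := exists_em σ (NumberField.ComplexEmbedding.lift F τ)
      rw [← IntermediateField.fixingSubgroup_fixedField χ.ker,
        IntermediateField.mem_fixingSubgroup_iff]
      intro f hf
      have h1 := hne ⟨f, hf⟩
      have h2 : τ ⟨f, hf⟩ = em σ k f := by
        conv_lhs => rw [← hτ, hk]
        rfl
      rw [h2] at h1
      have h3 : em σ (k * c0) f = conj (em σ k f) := by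
        rw [hconj]
        rfl
      rw [h1] at h3
      have h4 : (em σ k) (c0 f) = em σ k f := h3
      exact (em σ k).injective h4
    have h5 := all_of_one hS hgal (Hyp _ hgal hcyc him' (sub_label hlab))
      (hS.tens_mem χ.ker (fun _ => V) fun _ => hV) hQ
      ((em σ g).comp (algebraMap (IntermediateField.fixedField χ.ker) F))
    rw [hQ2, pi_pow_sum, ← Finset.prod_div_distrib] at h5
    simp only [em_mul] at h5
    convert h5 using 1

end R912.GD
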