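import Pool.Agent.R912.GD.Label

/-! # Labels of cyclotomic fields -/

open scoped ComplexConjugate Real

namespace R912.GD

/-- The `d`-th cyclotomic field, as a subfield of `ℂ`. -/
noncomputable abbrev CF (d : ℕ) : IntermediateField ℚ ℂ := IntermediateField.adjoin ℚ {zet d}

theorem cf_cyc {d : ℕ} [NeZero d] :
    @IsCyclotomicExtension {d} ℚ (CF d) _ _ (IntermediateField.algebra' _) := by
  have hζ := zet_prim (NeZero.pos d)
  have halg : IsAlgebraic ℚ (zet d) := (hζ.isIntegral (NeZero.pos d)).tower_top.isAlgebraic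
  change IsCyclotomicExtension {d} ℚ (CF d).toSubalgebra
  rw [IntermediateField.adjoin_simple_toSubalgebra_of_isAlgebraic halg]
  exact hζ.adjoin_isCyclotomicExtension ℚ

theorem cf_cyc' {d : ℕ} [NeZero d] : IsCyclotomicExtension {d} ℚ (CF d) := by
  have h : (IntermediateField.algebra' _ : Algebra ℚ (CF d)) =
      DivisionRing.toRatAlgebra := Subsingleton.elim _ _
  rw [← h]
  exact cf_cyc

instance cf_nf {d : ℕ} [NeZero d] : NumberField (CF d) :=
  have := cf_cyc' (d := d)
  IsCyclotomicExtension.numberField {d} ℚ (CF d)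

theorem cf_abelian {d : ℕ} [NeZero d] : IsAbelianField (CF d) := by
  have := cf_cyc' (d := d)
  exact ⟨IsCyclotomicExtension.isGalois {d} ℚ (CF d),
    isMulCommutative_iff.1 (IsCyclotomicExtension.isMulCommutative {d} ℚ (CF d))⟩

theorem cf_imaginary {d : ℕ} (hd : 3 ≤ d) : IsImaginary (CF d) := by
  intro σ
  let z : CF d := IntermediateField.AdjoinSimple.gen ℚ (zet d)
  have hz : IsPrimitiveRoot z d := by
    have h1 := zet_prim (d := d) (by omega)
    have h2 : ((z : CF d) : ℂ) = zet d := IntermediateField.AdjoinSimple.coe_gen ℚ (zet d)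
    rw [← h2] at h1
    exact IsPrimitiveRoot.coe_submonoidClass_iff.1 h1
  have hσ : IsPrimitiveRoot (σ z) d := hz.map_of_injective σ.injective
  refine ⟨z, fun hreal => ?_⟩
  obtain ⟨r, hr⟩ := Complex.conj_eq_iff_real.1 hreal
  have h1 := hσ.pow_eq_one
  rw [hr] at h1
  have h2 : r ^ d = 1 := by exact_mod_cast h1
  have h3 : |r| = 1 := by
    have h4 : |r| ^ d = 1 := by rw [← abs_pow, h2, abs_one]
    exact (pow_eq_one_iff_of_nonneg (abs_nonneg r) (by omega)).1 h4
  have h5 : r ^ 2 = 1 := by rw [← sq_abs, h3, one_pow]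
  have h6 : (σ z) ^ 2 = 1 := by
    rw [hr]
    exact_mod_cast h5
  have h7 := hσ.dvd_of_pow_eq_one 2 h6
  have := Nat.le_of_dvd (by norm_num) h7
  omega

/-- The conductor of a field is the conductor of its cyclotomic field. -/
theorem cf_label {F : Type} [Field F] {d : ℕ} [NeZero d] {φ : (ZMod d)ˣ → (F →+* ℂ)}
    (hφ : IsLabel F d φ) : ∃ ψ : (ZMod d)ˣ → (CF d →+* ℂ), IsLabel (CF d) d ψ := by
  classical
  have hd := NeZero.pos d
  choose s hs using fun l : (ZMod d)ˣ => exists_hom hd l
  refine ⟨fun l => if l = 1 then (CF d).val.toRingHom else s l, ⟨⟨hd, fun e => ?_⟩, ?_⟩, ?_⟩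
  · rw [if_pos rfl]
    exact e.2
  · rintro m ⟨hm, hm2⟩
    refine hφ.conductor.2 ⟨hm, fun f => ?_⟩
    have h1 := hφ.conductor.1.2 f
    have h2 := hm2 ⟨φ 1 f, h1⟩
    rw [if_pos rfl] at h2
    exact h2
  · intro l
    by_cases hl : l = 1
    · refine ⟨(CF d).val.toRingHom, fun z => ⟨fun hz => ?_, ?_⟩⟩
      · subst hl
        show (z : ℂ) = _
        rw [hz]
        by_cases hn1 : d = 1
        · have : zet d = 1 := by
            rw [hn1]
            simp [zet, Complex.exp_two_pi_mul_I]
          change zet d = zet d ^ _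
          rw [this, one_pow]
        · have : Fact (1 < d) := ⟨by omega⟩
          rw [Units.val_one, ZMod.val_one, pow_one]
      · intro f hf
        rw [if_pos hl]
        rw [if_pos rfl] at hf
        exact hf.symm
    · refine ⟨s l, fun z => ⟨hs l z, fun f hf => ?_⟩⟩
      rw [if_neg hl]
      rw [if_pos rfl] at hf
      congr 1
      apply Subtype.ext
      exact hf.symm

theorem not_two {F : Type} [Field F] {φ : (ZMod 2)ˣ → (F →+* ℂ)} (hφ : IsLabel F 2 φ) :
    False := by
  have h1 : zet 2 = -1 := by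
    have : zet 2 = Complex.exp (π * Complex.I) := by
      unfold zet
      congr 1
      push_cast
      ring
    rw [this, Complex.exp_pi_mul_I]
  have key : ∀ f : F, φ 1 f ∈
      IntermediateField.adjoin ℚ {Complex.exp (2 * π * Complex.I / ((1 : ℕ) : ℂ))} := by
    intro f
    have h3 := hφ.conductor.1.2 f
    change φ 1 f ∈ IntermediateField.adjoin ℚ {zet 2} at h3
    rw [h1] at h3
    have h4 : IntermediateField.adjoin ℚ {(-1 : ℂ)} ≤
        IntermediateField.adjoin ℚ {Complex.exp (2 * π * Complex.I / ((1 : ℕ) : ℂ))} := by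
      rw [IntermediateField.adjoin_simple_le_iff]
      exact neg_mem (one_mem _)
    exact h4 h3
  have h2 : 2 ≤ 1 := hφ.conductor.2 ⟨one_pos, key⟩
  omega

end R912.GD
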