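import Mathlib

/-! # Periods of Hodge–de Rham structures and the Gross–Deligne conjecture: definitions -/

open scoped ComplexConjugate Real

namespace R912.GD

/-- The cohomology `H^w` of a smooth projective variety over the algebraic numbers, written in
coordinates: `I` indexes a `ℚ`-basis of the Betti cohomology `H_B`, `hodge p` is the piece
`H^{p,w-p}` of `H_B ⊗ ℂ = ℂ^I`, and `dR` is the image of `H_dR` in `H_B ⊗ ℂ`. -/
structure HdR where
  I : Type
  w : ℤ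
  hodge : ℤ → Submodule ℂ (I → ℂ)
  dR : Submodule (algebraicClosure ℚ ℂ) (I → ℂ)

/-- The tensor product of a finite family of Hodge–de Rham structures. -/
noncomputable def tens {J : Type} [Fintype J] (V : J → HdR) : HdR where
  I := ∀ j, (V j).I
  w := ∑ j, (V j).w
  hodge q := Submodule.span ℂ {v | ∃ (p : J → ℤ) (u : ∀ j, (V j).I → ℂ),
    (∀ j, u j ∈ (V j).hodge (p j)) ∧ ∑ j, p j = q ∧ v = fun k => ∏ j, u j (k j)}
  dR := Submodule.span (algebraicClosure ℚ ℂ) {v | ∃ u : ∀ j, (V j).I → ℂ,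
    (∀ j, u j ∈ (V j).dR) ∧ v = fun k => ∏ j, u j (k j)}

/-- An admissible triple `(H, F, ι)` in `V`, together with its periods.  The vector
`x ∈ H_B ⊗ F = F^I` generates the line `H_id`; so `H = {Tr (f x) : f ∈ F}` has dimension
`[F : ℚ]` (condition `span`), `H_σ` is the line through `σ x`, it lies in `H^{p σ, w - p σ}`,
and `P σ • σ x` is a de Rham class, that is, `P σ` represents the period `P_σ(H)`. -/
structure IsTriple (V : HdR) {F : Type} [Field F] [NumberField F] (x : V.I → F)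
    (p : (F →+* ℂ) → ℤ) (P : (F →+* ℂ) → ℂ) : Prop where
  span : Submodule.span ℚ (Set.range x) = ⊤
  hodge : ∀ σ : F →+* ℂ, (fun k => σ (x k)) ∈ V.hodge (p σ)
  dR : ∀ σ : F →+* ℂ, (fun k => P σ * σ (x k)) ∈ V.dR
  ne : ∀ σ : F →+* ℂ, P σ ≠ 0

/-- `B` is a polarization of `V`, with values in `ℚ(-w)`. -/
structure IsPolarization (V : HdR) (B : (V.I → ℂ) →ₗ[ℂ] (V.I → ℂ) →ₗ[ℂ] ℂ) : Prop where
  rational : ∀ u v : V.I → ℚ, ∃ q : ℚ, B (fun k => (u k : ℂ)) (fun k => (v k : ℂ)) = q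
  deRham : ∀ u ∈ V.dR, ∀ v ∈ V.dR, IsAlgebraic ℚ (B u v / (π : ℂ) ^ V.w)
  nonzero : ∀ p : ℤ, ∀ v ∈ V.hodge p, v ≠ 0 → B v (fun k => conj (v k)) ≠ 0

/-- The product `∏ Γ(1 - a/d) ^ ε(a l⁻¹)` over the residue classes `a` modulo `d`
(the class `0` contributes the factor `1`). -/
noncomputable def gam (d : ℕ) [NeZero d] (ε : ZMod d → ℚ) (l : (ZMod d)ˣ) : ℝ :=
  ∏ a : ZMod d, Real.Gamma (1 - (a.val : ℝ) / d) ^ ((ε (a * (↑l⁻¹ : ZMod d)) : ℚ) : ℝ)

/-- `d p(l) = ∑ ε(a) ⟨l a⟩` for every unit `l` modulo `d`. -/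
def IsEps (d : ℕ) [NeZero d] (p : (ZMod d)ˣ → ℤ) (ε : ZMod d → ℚ) : Prop :=
  ∀ l : (ZMod d)ˣ, (d : ℚ) * p l = ∑ a : ZMod d, ε a * (((l : ZMod d) * a).val : ℚ)

/-- `d` is the conductor of the abelian field `F`, and `φ l : F → ℂ` is the embedding `φ 1`
of `F` into `ℚ(ζ)`, `ζ = exp (2 π i / d)`, followed by `ζ ↦ ζ ^ l`. -/
structure IsLabel (F : Type) [Field F] (d : ℕ) (φ : (ZMod d)ˣ → (F →+* ℂ)) : Prop where
  conductor : IsLeast {m : ℕ | 0 < m ∧ ∀ f : F,
    φ 1 f ∈ IntermediateField.adjoin ℚ {Complex.exp (2 * π * Complex.I / m)}} d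
  galois : ∀ l : (ZMod d)ˣ,
    ∃ s : IntermediateField.adjoin ℚ {Complex.exp (2 * π * Complex.I / d)} →+* ℂ,
      ∀ z : IntermediateField.adjoin ℚ {Complex.exp (2 * π * Complex.I / d)},
        ((z : ℂ) = Complex.exp (2 * π * Complex.I / d) →
          s z = Complex.exp (2 * π * Complex.I / d) ^ (l : ZMod d).val) ∧
        ∀ f : F, (z : ℂ) = φ 1 f → φ l f = s z

/-- `F` is an abelian number field. -/
def IsAbelianField (F : Type) [Field F] [NumberField F] : Prop :=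
  IsGalois ℚ F ∧ ∀ g h : F ≃ₐ[ℚ] F, g * h = h * g

/-- `F` is totally imaginary. -/
def IsImaginary (F : Type) [Field F] : Prop :=
  ∀ σ : F →+* ℂ, ∃ f : F, conj (σ f) ≠ σ f

/-- `Φ` is (the indicator function of) a CM type of `F`. -/
def IsCMType {F : Type} [Field F] (Φ : (F →+* ℂ) → ℤ) : Prop :=
  ∀ σ : F →+* ℂ, (Φ σ = 0 ∨ Φ σ = 1) ∧ Φ σ + Φ ((starRingEnd ℂ).comp σ) = 1

/-- The relation of Gross and Deligne for a triple with Hodge numbers `p` and periods `P`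
(if `F = ℚ`, so that `d = 1`, the existence of `ε` is not required). -/
def Relation {F : Type} [Field F] (p : (F →+* ℂ) → ℤ) (P : (F →+* ℂ) → ℂ) : Prop :=
  ∀ (d : ℕ) [NeZero d] (φ : (ZMod d)ˣ → (F →+* ℂ)), IsLabel F d φ →
    (2 ≤ d → ∃ ε : ZMod d → ℚ, IsEps d (fun l => p (φ l)) ε) ∧
      ∀ ε : ZMod d → ℚ, IsEps d (fun l => p (φ l)) ε →
        ∀ l, IsAlgebraic ℚ (P (φ l) / gam d ε l)

/-- A class of Hodge–de Rham structures with the basic properties of the cohomology of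
smooth projective varieties over the algebraic numbers. -/
structure IsSystem (S : Set HdR) : Prop where
  tens_mem : ∀ (J : Type) [Fintype J] (V : J → HdR), (∀ j, V j ∈ S) → tens V ∈ S
  conj_mem : ∀ V ∈ S, ∀ p : ℤ, ∀ v ∈ V.hodge p, (fun k => conj (v k)) ∈ V.hodge (V.w - p)
  disjoint : ∀ V ∈ S, ∀ p q : ℤ, ∀ v ∈ V.hodge p, v ∈ V.hodge q → v ≠ 0 → p = q
  polarization : ∀ V ∈ S, ∃ B : (V.I → ℂ) →ₗ[ℂ] (V.I → ℂ) →ₗ[ℂ] ℂ, IsPolarization V B
  cm : ∀ (F : Type) [Field F] [NumberField F], IsAbelianField F → IsImaginary F →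
    ∀ Φ : (F →+* ℂ) → ℤ, IsCMType Φ → ∃ V ∈ S, V.w = 1 ∧ ∃ x P, IsTriple V x Φ P

/-- The Gross–Deligne conjecture for the class `S`. -/
def GrossDeligne (S : Set HdR) : Prop :=
  ∀ (F : Type) [Field F] [NumberField F], IsAbelianField F → ∀ V ∈ S, ∀ (x : V.I → F)
    (p : (F →+* ℂ) → ℤ) (P : (F →+* ℂ) → ℂ), IsTriple V x p P → Relation p P

/-- Anderson's case: CM abelian varieties. -/
def Anderson (S : Set HdR) : Prop :=
  ∀ (F : Type) [Field F] [NumberField F], IsAbelianField F → IsImaginary F →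
    ∀ V ∈ S, V.w = 1 → ∀ (x : V.I → F) (Φ : (F →+* ℂ) → ℤ) (P : (F →+* ℂ) → ℂ),
      IsCMType Φ → IsTriple V x Φ P → Relation Φ P

/-- For spaces of Hodge classes with multiplication by `F`, at least one period is an algebraic
multiple of the expected power of `π`. -/
def OnePeriod (S : Set HdR) (F : Type) [Field F] [NumberField F] : Prop :=
  ∀ V ∈ S, ∀ (x : V.I → F) (c : ℤ) (P : (F →+* ℂ) → ℂ),
    IsTriple V x (fun _ => c) P → ∃ σ, IsAlgebraic ℚ (P σ / (π : ℂ) ^ c)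

/-- The cyclic case: spaces of Hodge classes with multiplication by an imaginary cyclic field. -/
def CyclicCase (S : Set HdR) : Prop :=
  ∀ (F : Type) [Field F] [NumberField F], IsGalois ℚ F → IsCyclic (F ≃ₐ[ℚ] F) →
    IsImaginary F → (∃ (d : ℕ) (_ : NeZero d) (φ : (ZMod d)ˣ → (F →+* ℂ)), IsLabel F d φ) →
      OnePeriod S F

end R912.GD
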