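import Mathlib

/-! # Multiplicative relations modulo algebraic numbers, and characters of finite abelian groups -/

namespace R912.GD

open Finset

theorem alg_iff {z : ℂ} : IsAlgebraic ℚ z ↔ z ∈ algebraicClosure ℚ ℂ :=
  mem_algebraicClosure_iff.symm

theorem alg_mul {a b : ℂ} (ha : IsAlgebraic ℚ a) (hb : IsAlgebraic ℚ b) : IsAlgebraic ℚ (a * b) :=
  ha.mul hb

theorem alg_zpow {a : ℂ} (ha : IsAlgebraic ℚ a) (n : ℤ) : IsAlgebraic ℚ (a ^ n) := by
  rw [alg_iff] at *
  exact zpow_mem ha n

theorem alg_prod {J : Type} (s : Finset J) (f : J → ℂ) (h : ∀ j ∈ s, IsAlgebraic ℚ (f j)) :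
    IsAlgebraic ℚ (∏ j ∈ s, f j) := by
  rw [alg_iff]
  exact prod_mem fun j hj => alg_iff.1 (h j hj)

theorem alg_sum {J : Type} (s : Finset J) (f : J → ℂ) (h : ∀ j ∈ s, IsAlgebraic ℚ (f j)) :
    IsAlgebraic ℚ (∑ j ∈ s, f j) := by
  rw [alg_iff]
  exact sum_mem fun j hj => alg_iff.1 (h j hj)

/-- The rational exponents `f` for which some positive integral multiple gives an algebraic
monomial in the numbers `u i`. -/
def good {ι : Type} [Fintype ι] (u : ι → ℂ) (hu : ∀ i, u i ≠ 0) : Submodule ℚ (ι → ℚ) where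
  carrier := {f | ∃ N : ℕ, 0 < N ∧ ∃ h : ι → ℤ, (∀ i, (h i : ℚ) = N * f i) ∧
    IsAlgebraic ℚ (∏ i, u i ^ h i)}
  zero_mem' := ⟨1, one_pos, fun _ => 0, by simp, by simpa using isAlgebraic_one⟩
  add_mem' := by
    rintro a b ⟨N, hN, h, h1, h2⟩ ⟨M, hM, k, k1, k2⟩
    refine ⟨N * M, Nat.mul_pos hN hM, fun i => M * h i + N * k i, fun i => ?_, ?_⟩
    · push_cast
      rw [h1, k1]
      simp only [Pi.add_apply]
      ring
    · have : ∏ i, u i ^ ((M : ℤ) * h i + N * k i) =
          (∏ i, u i ^ h i) ^ (M : ℤ) * (∏ i, u i ^ k i) ^ (N : ℤ) := by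
        rw [← Finset.prod_zpow, ← Finset.prod_zpow, ← Finset.prod_mul_distrib]
        refine Finset.prod_congr rfl fun i _ => ?_
        rw [zpow_add₀ (hu i), mul_comm (M : ℤ), mul_comm (N : ℤ), zpow_mul, zpow_mul]
      rw [this]
      exact alg_mul (alg_zpow h2 _) (alg_zpow k2 _)
  smul_mem' := by
    rintro c a ⟨N, hN, h, h1, h2⟩
    refine ⟨N * c.den, Nat.mul_pos hN c.den_pos, fun i => c.num * h i, fun i => ?_, ?_⟩
    · push_cast
      rw [h1]
      simp only [Pi.smul_apply, smul_eq_mul]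
      have : (c.num : ℚ) = c * c.den := by
        rw [Rat.mul_den_eq_num]
      rw [this]
      ring
    · have : ∏ i, u i ^ (c.num * h i) = (∏ i, u i ^ h i) ^ c.num := by
        rw [← Finset.prod_zpow]
        refine Finset.prod_congr rfl fun i _ => ?_
        rw [mul_comm, zpow_mul]
      rw [this]
      exact alg_zpow h2 _

theorem alg_of_good_top {ι : Type} [Fintype ι] (u : ι → ℂ) (hu : ∀ i, u i ≠ 0)
    (h : good u hu = ⊤) (i : ι) : IsAlgebraic ℚ (u i) := by
  classical
  have hm : (Pi.single i 1 : ι → ℚ) ∈ good u hu := by rw [h]; trivial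
  obtain ⟨N, hN, k, h1, h2⟩ := hm
  have hk : ∀ j, k j = if j = i then (N : ℤ) else 0 := by
    intro j
    have := h1 j
    by_cases hj : j = i
    · subst hj
      simp at this
      simp only [if_true]
      exact_mod_cast this
    · simp [hj] at this
      simp [hj, this]
  have h3 : ∏ j, u j ^ k j = u i ^ N := by
    rw [Finset.prod_eq_single i]
    · simp [hk]
    · intro j _ hj
      simp [hk, hj]
    · simp
  rw [h3] at h2
  exact IsAlgebraic.of_pow hN h2

/-- If `a` annihilates all good exponents, then its sum over every family with algebraic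
product vanishes. -/
theorem ann_family {ι : Type} [Fintype ι] (u : ι → ℂ) (hu : ∀ i, u i ≠ 0) (a : ι → ℚ)
    (ha : ∀ f ∈ good u hu, ∑ i, a i * f i = 0) {J : Type} [Fintype J] (s : J → ι)
    (hs : IsAlgebraic ℚ (∏ j, u (s j))) : ∑ j, a (s j) = 0 := by
  classical
  have hm : (fun i => (((univ.filter fun j => s j = i).card : ℕ) : ℚ)) ∈ good u hu := by
    refine ⟨1, one_pos, fun i => ((univ.filter fun j => s j = i).card : ℕ), fun i => by simp, ?_⟩
    have : ∏ i, u i ^ (((univ.filter fun j => s j = i).card : ℕ) : ℤ) = ∏ j, u (s j) := by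
      rw [← Finset.prod_fiberwise (s := univ) (g := s)]
      refine Finset.prod_congr rfl fun i _ => ?_
      rw [zpow_natCast, ← Finset.prod_const]
      refine Finset.prod_congr rfl fun j hj => ?_
      rw [(Finset.mem_filter.1 hj).2]
    rw [this]
    exact hs
  have h0 := ha _ hm
  rw [← h0, ← Finset.sum_fiberwise (s := univ) (g := s)]
  refine Finset.sum_congr rfl fun i _ => ?_
  rw [mul_comm, ← nsmul_eq_mul, ← Finset.sum_const]
  refine Finset.sum_congr rfl fun j hj => ?_
  rw [(Finset.mem_filter.1 hj).2]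

theorem good_top {ι : Type} [Fintype ι] (u : ι → ℂ) (hu : ∀ i, u i ≠ 0)
    (h : ∀ a : ι → ℚ, (∀ f ∈ good u hu, ∑ i, a i * f i = 0) → a = 0) : good u hu = ⊤ := by
  classical
  by_contra hne
  obtain ⟨φ, hφ, hle⟩ := Submodule.exists_le_ker_of_lt_top _ (lt_top_iff_ne_top.2 hne)
  refine hφ ?_
  have h2 : (fun i => φ (Pi.single i 1)) = (0 : ι → ℚ) := by
    refine h _ fun f hf => ?_
    have h3 : φ f = 0 := hle hf
    rw [LinearMap.pi_apply_eq_sum_univ] at h3
    rw [← h3]
    refine Finset.sum_congr rfl fun i _ => ?_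
    rw [smul_eq_mul, mul_comm]
    congr 2
    ext j
    simp [Pi.single_apply, eq_comm]
  refine LinearMap.pi_ext' fun i => ?_
  refine LinearMap.ext_ring ?_
  have := congrFun h2 i
  simpa using this

/-- Fourier analysis: a function on a finite abelian group which is odd and whose sums over the
cosets of the kernels of the odd characters vanish is zero. -/
theorem fourier {Γ : Type} [Group Γ] [Fintype Γ] (hcomm : ∀ g h : Γ, g * h = h * g)
    (a : Γ → ℚ) (c : Γ)
    (ho : ∀ g, a g + a (g * c) = 0)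
    (hK : ∀ χ : Γ →* ℂ, c ∉ χ.ker → ∀ g, ∑ t : χ.ker, a (g * t) = 0) : a = 0 := by
  classical
  let _ : CommGroup Γ := { ‹Group Γ› with mul_comm := hcomm }
  have key : ∀ ψ : AddChar (Additive Γ) ℂ, ∑ g : Γ, (a g : ℂ) * ψ (Additive.ofMul g) = 0 := by
    intro ψ
    have hmul : ∀ x y : Γ, ψ (Additive.ofMul (x * y)) =
        ψ (Additive.ofMul x) * ψ (Additive.ofMul y) := by
      intro x y
      exact AddChar.map_add_eq_mul ψ (Additive.ofMul x) (Additive.ofMul y)
    by_cases hc : ψ (Additive.ofMul c) = 1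
    · have h1 : ∑ g : Γ, (a g : ℂ) * ψ (Additive.ofMul g) =
          ∑ g : Γ, (a (g * c) : ℂ) * ψ (Additive.ofMul (g * c)) :=
        (Equiv.sum_comp (Equiv.mulRight c) fun g => (a g : ℂ) * ψ (Additive.ofMul g)).symm
      have h2 : ∑ g : Γ, (a (g * c) : ℂ) * ψ (Additive.ofMul (g * c)) =
          -∑ g : Γ, (a g : ℂ) * ψ (Additive.ofMul g) := by
        rw [← Finset.sum_neg_distrib]
        refine Finset.sum_congr rfl fun g _ => ?_
        have h3 : (a (g * c) : ℂ) = -(a g : ℂ) := by
          have := ho g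
          have h4 : a (g * c) = -a g := by linarith
          rw [h4]
          push_cast
          rfl
        rw [hmul, hc, h3]
        ring
      rw [h2] at h1
      have h5 : (2 : ℂ) * ∑ g : Γ, (a g : ℂ) * ψ (Additive.ofMul g) = 0 := by
        linear_combination h1
      simpa using h5
    · let χ : Γ →* ℂ :=
        { toFun := fun g => ψ (Additive.ofMul g)
          map_one' := AddChar.map_zero_eq_one ψ
          map_mul' := hmul }
      have hχ : ∀ g, χ g = ψ (Additive.ofMul g) := fun g => rfl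
      have hc' : c ∉ χ.ker := by
        rw [MonoidHom.mem_ker]
        exact hc
      have h1 : ∀ t : χ.ker, ∑ g : Γ, (a g : ℂ) * χ g = ∑ g : Γ, (a (g * t) : ℂ) * χ g := by
        intro t
        rw [← Equiv.sum_comp (Equiv.mulRight (t : Γ)) fun g => (a g : ℂ) * χ g]
        refine Finset.sum_congr rfl fun g _ => ?_
        have h3 : χ (t : Γ) = 1 := MonoidHom.mem_ker.1 t.2
        simp only [Equiv.coe_mulRight, map_mul, h3, mul_one]
      have h2 : (Fintype.card χ.ker : ℂ) * ∑ g : Γ, (a g : ℂ) * χ g = 0 := by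
        calc (Fintype.card χ.ker : ℂ) * ∑ g : Γ, (a g : ℂ) * χ g
            = ∑ t : χ.ker, ∑ g : Γ, (a g : ℂ) * χ g := by
              rw [Finset.sum_const, nsmul_eq_mul, Finset.card_univ]
          _ = ∑ t : χ.ker, ∑ g : Γ, (a (g * t) : ℂ) * χ g :=
              Finset.sum_congr rfl fun t _ => h1 t
          _ = ∑ g : Γ, ∑ t : χ.ker, (a (g * t) : ℂ) * χ g := Finset.sum_comm
          _ = ∑ g : Γ, ((∑ t : χ.ker, a (g * t) : ℚ) : ℂ) * χ g := by
              refine Finset.sum_congr rfl fun g _ => ?_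
              rw [Rat.cast_sum, Finset.sum_mul]
          _ = 0 := by
              refine Finset.sum_eq_zero fun g _ => ?_
              rw [hK χ hc' g]
              simp
      have h4 : (Fintype.card χ.ker : ℂ) ≠ 0 := by
        exact_mod_cast Fintype.card_ne_zero
      exact (mul_eq_zero.1 h2).resolve_left h4
  let L : (Additive Γ → ℂ) →ₗ[ℂ] ℂ :=
    { toFun := fun f => ∑ g : Γ, (a g : ℂ) * f (Additive.ofMul g)
      map_add' := fun f f' => by
        simp only [Pi.add_apply, mul_add, Finset.sum_add_distrib]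
      map_smul' := fun r f => by
        simp only [Pi.smul_apply, smul_eq_mul, RingHom.id_apply, Finset.mul_sum]
        exact Finset.sum_congr rfl fun g _ => by ring }
  have hL : L = 0 := by
    refine (AddChar.complexBasis (Additive Γ)).ext fun ψ => ?_
    rw [AddChar.complexBasis_apply]
    exact key ψ
  funext g
  have h6 : L (Pi.single (Additive.ofMul g) 1) = 0 := by rw [hL]; rfl
  have h7 : L (Pi.single (Additive.ofMul g) 1) = (a g : ℂ) := by
    show ∑ g' : Γ, (a g' : ℂ) * (Pi.single (Additive.ofMul g) (1 : ℂ) : Additive Γ → ℂ)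
      (Additive.ofMul g') = _
    rw [Finset.sum_eq_single g]
    · simp
    · intro b _ hb
      have : Additive.ofMul b ≠ Additive.ofMul g := fun h => hb (Additive.ofMul.injective h)
      rw [Pi.single_eq_of_ne this, mul_zero]
    · simp
  rw [h7] at h6
  exact_mod_cast h6

theorem core {Γ : Type} [Group Γ] [Fintype Γ] (hcomm : ∀ g h : Γ, g * h = h * g) (c : Γ) (u : Γ → ℂ) (hu : ∀ g, u g ≠ 0)
    (h1 : ∀ g, IsAlgebraic ℚ (u g * u (g * c)))
    (h2 : ∀ χ : Γ →* ℂ, c ∉ χ.ker → ∀ g, IsAlgebraic ℚ (∏ t : χ.ker, u (g * t))) (g : Γ) :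
    IsAlgebraic ℚ (u g) := by
  refine alg_of_good_top u hu (good_top u hu fun a ha => ?_) g
  refine fourier hcomm a c (fun g => ?_) fun χ hχ g => ?_
  · have := ann_family u hu a ha (J := Bool) (fun b => bif b then g else g * c)
      (by simpa using h1 g)
    simpa using this
  · exact ann_family u hu a ha (J := χ.ker) (fun t => g * t) (h2 χ hχ g)

theorem core2 {Γ : Type} [Group Γ] [Fintype Γ] (u : Γ → ℂ) (hu : ∀ g, u g ≠ 0)
    (H : ∀ (J : Type) [Fintype J] [Nonempty J] (s : J → Γ),
      ∃ h : Γ, IsAlgebraic ℚ (∏ j, u (h * s j))) (g : Γ) : IsAlgebraic ℚ (u g) := by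
  classical
  let e : Γ ≃ Fin (Fintype.card Γ) := Fintype.equivFin Γ
  have hN : ∀ N : ℕ, ∃ h : Γ, IsAlgebraic ℚ
      (∏ j : (Σ g : Γ, Fin ((N + 1) ^ (e g : ℕ))), u (h * j.1)) := by
    intro N
    have : Nonempty (Σ g : Γ, Fin ((N + 1) ^ (e g : ℕ))) := ⟨⟨1, ⟨0, by positivity⟩⟩⟩
    exact H (Σ g : Γ, Fin ((N + 1) ^ (e g : ℕ))) fun j => j.1
  choose f hf using hN
  obtain ⟨h, hinf⟩ := Finite.exists_infinite_fiber f
  have hinf' : (f ⁻¹' {h}).Infinite := Set.infinite_coe_iff.1 hinf
  have htop : good (fun g => u (h * g)) (fun g => hu _) = ⊤ := by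
    refine good_top _ _ fun a ha => ?_
    have hz : ∀ N ∈ f ⁻¹' {h}, ∑ g : Γ, ((N : ℚ) + 1) ^ (e g : ℕ) * a g = 0 := by
      intro N hN
      have hN' : f N = h := hN
      have h1 := ann_family (fun g => u (h * g)) (fun g => hu _) a ha
        (J := Σ g : Γ, Fin ((N + 1) ^ (e g : ℕ))) (fun j => j.1) (by
          have := hf N
          rw [hN'] at this
          exact this)
      rw [Fintype.sum_sigma] at h1
      rw [← h1]
      refine Finset.sum_congr rfl fun g _ => ?_
      have h5 : ∑ _y : Fin ((N + 1) ^ (e g : ℕ)), a g = ((N : ℚ) + 1) ^ (e g : ℕ) * a g := by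
        rw [Finset.sum_const, Finset.card_univ, Fintype.card_fin, nsmul_eq_mul]
        push_cast
        rfl
      exact h5.symm
    let q : Polynomial ℚ := ∑ g : Γ, Polynomial.C (a g) * Polynomial.X ^ (e g : ℕ)
    have hq : q = 0 := by
      refine Polynomial.eq_zero_of_infinite_isRoot q ?_
      refine Set.Infinite.mono (s := (fun N : ℕ => (N : ℚ) + 1) '' (f ⁻¹' {h})) ?_
        (hinf'.image ?_)
      · rintro _ ⟨N, hN, rfl⟩
        show q.IsRoot _
        rw [Polynomial.IsRoot.def]
        simp only [q, Polynomial.eval_finsetSum, Polynomial.eval_mul, Polynomial.eval_C,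
          Polynomial.eval_pow, Polynomial.eval_X]
        rw [← hz N hN]
        exact Finset.sum_congr rfl fun g _ => by ring
      · intro x _ y _ hxy
        have : (x : ℚ) = y := by
          have h1 : (x : ℚ) + 1 = y + 1 := hxy
          linarith
        exact_mod_cast this
    funext g
    have h3 : q.coeff (e g : ℕ) = a g := by
      simp only [q, Polynomial.finsetSum_coeff, Polynomial.coeff_C_mul, Polynomial.coeff_X_pow]
      rw [Finset.sum_eq_single g]
      · simp
      · intro b _ hb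
        have : ¬ ((e g : ℕ) = (e b : ℕ)) := fun hh => hb (e.injective (Fin.ext hh)).symm
        simp [this]
      · simp
    rw [hq] at h3
    simpa using h3.symm
  have := alg_of_good_top _ _ htop (h⁻¹ * g)
  simpa using this

end R912.GD
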