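import Pool.Agent.R912.GD.Defs

/-! # The gamma products -/

open scoped ComplexConjugate Real

namespace R912.GD

open Finset

variable {d : ℕ} [NeZero d]

theorem frac_lt (a : ZMod d) : (a.val : ℝ) / d < 1 := by
  have h : (0 : ℝ) < d := by
    have := NeZero.pos d
    exact_mod_cast this
  rw [div_lt_one h]
  exact_mod_cast ZMod.val_lt a

theorem gamma_pos (a : ZMod d) : 0 < Real.Gamma (1 - (a.val : ℝ) / d) :=
  Real.Gamma_pos_of_pos (by linarith [frac_lt a])

theorem gam_pos (ε : ZMod d → ℚ) (l : (ZMod d)ˣ) : 0 < gam d ε l :=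
  Finset.prod_pos fun a _ => Real.rpow_pos_of_pos (gamma_pos a) _

theorem gam_add (ε ε' : ZMod d → ℚ) (l : (ZMod d)ˣ) :
    gam d (fun a => ε a + ε' a) l = gam d ε l * gam d ε' l := by
  unfold gam
  rw [← Finset.prod_mul_distrib]
  refine Finset.prod_congr rfl fun a _ => ?_
  rw [Rat.cast_add, Real.rpow_add (gamma_pos a)]

theorem gam_sum {J : Type} (s : Finset J) (ε : J → ZMod d → ℚ) (l : (ZMod d)ˣ) :
    gam d (fun a => ∑ j ∈ s, ε j a) l = ∏ j ∈ s, gam d (ε j) l := by
  classical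
  induction s using Finset.induction_on with
  | empty => simp [gam]
  | insert j s hj ih =>
    rw [Finset.prod_insert hj, ← ih, ← gam_add]
    congr 1
    funext a
    rw [Finset.sum_insert hj]

/-- The reflected factor. -/
noncomputable def refl (a : ZMod d) : ℝ :=
  if a = 0 then 1 else 1 / Real.sin (π * ((a.val : ℝ) / d))

theorem sin_pos' (a : ZMod d) (ha : a ≠ 0) : 0 < Real.sin (π * ((a.val : ℝ) / d)) := by
  have hd : (0 : ℝ) < d := by
    have := NeZero.pos d
    exact_mod_cast this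
  have h0 : (0 : ℝ) < (a.val : ℝ) / d := by
    have : 0 < a.val := Nat.pos_of_ne_zero fun h => ha ((ZMod.val_eq_zero a).1 h)
    have h2 : (0 : ℝ) < a.val := by exact_mod_cast this
    positivity
  refine Real.sin_pos_of_pos_of_lt_pi (by positivity) ?_
  have := frac_lt a
  nlinarith [Real.pi_pos]

theorem refl_pos (a : ZMod d) : 0 < refl a := by
  unfold refl
  split_ifs with h
  · exact one_pos
  · exact one_div_pos.2 (sin_pos' a h)

theorem refl_alg (a : ZMod d) : IsAlgebraic ℚ (refl a) := by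
  unfold refl
  split_ifs with h
  · exact isAlgebraic_one
  · have h1 := (Real.isAlgebraic_sin_rat_mul_pi ((a.val : ℚ) / d)).extendScalars
      (R := ℤ) (S := ℚ) (algebraMap ℤ ℚ).injective_int
    have h2 : Real.sin ((((a.val : ℚ) / d : ℚ) : ℝ) * π) =
        Real.sin (π * ((a.val : ℝ) / d)) := by
      push_cast
      rw [mul_comm]
    rw [h2] at h1
    rw [one_div]
    exact h1.inv

theorem gamma_refl (a : ZMod d) :
    Real.Gamma (1 - (a.val : ℝ) / d) * Real.Gamma (1 - ((-a).val : ℝ) / d) =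
      (if a = 0 then 1 else π) * refl a := by
  unfold refl
  by_cases h : a = 0
  · subst h
    simp
  · have hd : (d : ℝ) ≠ 0 := by
      have := NeZero.ne d
      exact_mod_cast this
    rw [if_neg h, if_neg h, ZMod.neg_val, if_neg h, Nat.cast_sub (ZMod.val_lt a).le]
    have h1 : 1 - ((d : ℝ) - a.val) / d = a.val / d := by
      field_simp
      ring
    rw [h1, mul_comm, Real.Gamma_mul_Gamma_one_sub]
    ring

theorem rpow_rat_alg {x : ℝ} (hx : 0 < x) (h : IsAlgebraic ℚ x) (q : ℚ) :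
    IsAlgebraic ℚ (x ^ (q : ℝ)) := by
  refine IsAlgebraic.of_pow (n := q.den) q.den_pos ?_
  have h1 : (x ^ (q : ℝ)) ^ q.den = x ^ q.num := by
    rw [← Real.rpow_natCast, ← Real.rpow_mul hx.le, ← Real.rpow_intCast]
    congr 1
    have := Rat.mul_den_eq_num q
    exact_mod_cast this
  rw [h1]
  have h2 : x ∈ algebraicClosure ℚ ℝ := mem_algebraicClosure_iff.2 h
  exact mem_algebraicClosure_iff.1 (zpow_mem h2 _)

theorem gam_refl (ε : ZMod d → ℚ) (l : (ZMod d)ˣ) :
    ∃ r : ℝ, IsAlgebraic ℚ r ∧ gam d ε l * gam d (fun a => ε (-a)) l =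
      π ^ ((∑ a : ZMod d, if a = 0 then 0 else ε a : ℚ) : ℝ) * r := by
  refine ⟨∏ a : ZMod d, refl a ^ ((ε (a * (↑l⁻¹ : ZMod d)) : ℚ) : ℝ), ?_, ?_⟩
  · have h2 : (∏ a : ZMod d, refl a ^ ((ε (a * (↑l⁻¹ : ZMod d)) : ℚ) : ℝ)) ∈
        algebraicClosure ℚ ℝ := prod_mem fun a _ =>
          mem_algebraicClosure_iff.2 (rpow_rat_alg (refl_pos a) (refl_alg a) _)
    exact mem_algebraicClosure_iff.1 h2
  · have h1 : gam d (fun a => ε (-a)) l = ∏ a : ZMod d,
        Real.Gamma (1 - ((-a).val : ℝ) / d) ^ ((ε (a * (↑l⁻¹ : ZMod d)) : ℚ) : ℝ) := by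
      unfold gam
      refine Fintype.prod_equiv (Equiv.neg (ZMod d)) _ _ fun a => ?_
      simp only [Equiv.neg_apply, neg_neg, neg_mul]
    have h3 : (∑ a : ZMod d, if a = 0 then 0 else ε a) =
        ∑ a : ZMod d, if a = 0 then 0 else ε (a * (↑l⁻¹ : ZMod d)) := by
      refine (Fintype.sum_equiv (Units.mulRight l⁻¹) _ _ fun a => ?_).symm
      simp
    rw [h1, h3]
    unfold gam
    rw [← Finset.prod_mul_distrib, Rat.cast_sum, Real.rpow_sum_of_pos Real.pi_pos,
      ← Finset.prod_mul_distrib]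
    refine Finset.prod_congr rfl fun a _ => ?_
    rw [← Real.mul_rpow (gamma_pos a).le (gamma_pos (-a)).le, gamma_refl]
    by_cases ha : a = 0
    · simp [ha]
    · rw [if_neg ha, if_neg ha, Real.mul_rpow Real.pi_pos.le (refl_pos a).le]

theorem sum_eps {c : ℤ} {ε : ZMod d → ℚ} (h : IsEps d (fun _ => c) ε) :
    (∑ a : ZMod d, if a = 0 then 0 else ε a) = 2 * c := by
  have h1 := h 1
  have h2 := h (-1)
  have hd : (d : ℚ) ≠ 0 := by
    have := NeZero.ne d
    exact_mod_cast this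
  simp only [Units.val_one, one_mul, Units.val_neg, neg_mul] at h1 h2
  have h3 : (d : ℚ) * (2 * c) = d * ∑ a : ZMod d, if a = 0 then 0 else ε a := by
    rw [Finset.mul_sum]
    have : (d : ℚ) * (2 * c) = ∑ a : ZMod d, (ε a * (a.val : ℚ) + ε a * ((-a).val : ℚ)) := by
      rw [Finset.sum_add_distrib, ← h1, ← h2]
      ring
    rw [this]
    refine Finset.sum_congr rfl fun a _ => ?_
    by_cases ha : a = 0
    · simp [ha]
    · rw [if_neg ha, ZMod.neg_val, if_neg ha, Nat.cast_sub (ZMod.val_lt a).le]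
      ring
  exact (mul_left_cancel₀ hd h3).symm

theorem isEps_neg {c : ℤ} {ε : ZMod d → ℚ} (h : IsEps d (fun _ => c) ε) :
    IsEps d (fun _ => c) (fun a => ε (-a)) := by
  intro l
  rw [h (-l)]
  refine Fintype.sum_equiv (Equiv.neg (ZMod d)) _ _ fun a => ?_
  simp

theorem isEps_sub {p q : (ZMod d)ˣ → ℤ} {ε η : ZMod d → ℚ} (h : IsEps d p ε)
    (h' : IsEps d q η) : IsEps d (fun l => p l - q l) (fun a => ε a - η a) := by
  intro l
  simp only [sub_mul, Finset.sum_sub_distrib, ← h l, ← h' l]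
  push_cast
  ring

theorem isEps_add {p q : (ZMod d)ˣ → ℤ} {ε η : ZMod d → ℚ} (h : IsEps d p ε)
    (h' : IsEps d q η) : IsEps d (fun l => p l + q l) (fun a => ε a + η a) := by
  intro l
  simp only [add_mul, Finset.sum_add_distrib, ← h l, ← h' l]
  push_cast
  ring

theorem isEps_sum {J : Type} (s : Finset J) {p : J → (ZMod d)ˣ → ℤ} {ε : J → ZMod d → ℚ}
    (h : ∀ j ∈ s, IsEps d (p j) (ε j)) :
    IsEps d (fun l => ∑ j ∈ s, p j l) (fun a => ∑ j ∈ s, ε j a) := by
  intro l
  push_cast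
  rw [Finset.mul_sum]
  simp only [Finset.sum_mul]
  rw [Finset.sum_comm]
  exact Finset.sum_congr rfl fun j hj => h j hj l

/-- If the Hodge numbers are constant, the gamma product is `π ^ c` up to algebraic numbers. -/
theorem gam_const (KO : ∀ ε : ZMod d → ℚ, IsEps d (fun _ => 0) ε →
    ∀ l : (ZMod d)ˣ, IsAlgebraic ℚ (gam d ε l)) {c : ℤ} {ε : ZMod d → ℚ} (h : IsEps d (fun _ => c) ε)
    (l : (ZMod d)ˣ) : IsAlgebraic ℚ (gam d ε l / π ^ c) := by
  obtain ⟨r, hr, hr2⟩ := gam_refl ε l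
  have h1 : IsEps d (fun _ => 0) (fun a => ε a - ε (-a)) := by
    have := isEps_sub h (isEps_neg h)
    simpa using this
  have h2 := KO _ h1 l
  have h3 : gam d ε l = gam d (fun a => ε a - ε (-a)) l * gam d (fun a => ε (-a)) l := by
    rw [← gam_add]
    congr 1
    funext a
    ring
  refine IsAlgebraic.of_pow (n := 2) two_pos ?_
  have h4 : (gam d ε l / π ^ c) ^ 2 = gam d (fun a => ε a - ε (-a)) l * r := by
    have hp : (π : ℝ) ^ c ≠ 0 := zpow_ne_zero _ Real.pi_ne_zero
    rw [sum_eps h] at hr2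
    have h5 : (π : ℝ) ^ (((2 * c : ℚ)) : ℝ) = (π ^ c) ^ 2 := by
      have h6 : (((2 * c : ℚ)) : ℝ) = ((2 * c : ℤ) : ℝ) := by push_cast; rfl
      rw [h6, Real.rpow_intCast, ← zpow_natCast, ← zpow_mul]
      congr 1
      push_cast
      ring
    rw [h5] at hr2
    rw [div_pow, div_eq_iff (pow_ne_zero 2 hp), sq (gam d ε l)]
    calc gam d ε l * gam d ε l
        = gam d ε l * (gam d (fun a => ε a - ε (-a)) l * gam d (fun a => ε (-a)) l) := by
          rw [← h3]
      _ = gam d (fun a => ε a - ε (-a)) l * (gam d ε l * gam d (fun a => ε (-a)) l) := by ring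
      _ = _ := by
          rw [hr2]
          ring
  rw [h4]
  exact h2.mul hr

end R912.GD
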