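import Pool.Agent.R912.GD.Const
import Pool.Agent.R912.GD.Gam
import Pool.Agent.R912.GD.Cyc

/-! # The reduction of the Gross–Deligne conjecture -/

open scoped ComplexConjugate Real

namespace R912.GD

open Finset

variable {S : Set HdR}

theorem cast_alg {r : ℝ} (h : IsAlgebraic ℚ r) : IsAlgebraic ℚ (r : ℂ) :=
  h.algHom ((Algebra.ofId ℝ ℂ).restrictScalars ℚ)

theorem gam_ne {d : ℕ} [NeZero d] (ε : ZMod d → ℚ) (l : (ZMod d)ˣ) :
    ((gam d ε l : ℝ) : ℂ) ≠ 0 := by
  exact_mod_cast (gam_pos ε l).ne'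

theorem gam_const' {d : ℕ} [NeZero d] (KO : ∀ ε : ZMod d → ℚ, IsEps d (fun _ => 0) ε →
    ∀ l : (ZMod d)ˣ, IsAlgebraic ℚ (gam d ε l)) {c : ℤ} {ε : ZMod d → ℚ}
    (h : IsEps d (fun _ => c) ε) (l : (ZMod d)ˣ) :
    IsAlgebraic ℚ ((gam d ε l : ℂ) / (π : ℂ) ^ c) := by
  have := cast_alg (gam_const KO h l)
  push_cast at this
  exact this

theorem conj_conj_emb {F : Type} [Field F] (σ : F →+* ℂ) :
    (starRingEnd ℂ).comp ((starRingEnd ℂ).comp σ) = σ := by
  ext f
  simp

theorem count {m k : ℕ} (hk : k ≤ m) :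
    (∑ i : Fin m, if (i : ℕ) < k then (1 : ℤ) else 0) = k := by
  rw [Fin.sum_univ_eq_sum_range (fun i => if i < k then (1 : ℤ) else 0) m]
  rw [Finset.sum_ite, Finset.sum_const_zero, add_zero, Finset.sum_const, nsmul_eq_mul, mul_one]
  have : (Finset.range m).filter (· < k) = Finset.range k := by
    ext i
    simp only [Finset.mem_filter, Finset.mem_range]
    omega
  rw [this, Finset.card_range]

/-- A function with `q σ + q σ̄ = m` is a sum of `m` CM types. -/
theorem exists_types {F : Type} [Field F] [NumberField F] (him : IsImaginary F) (m : ℕ)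
    (q : (F →+* ℂ) → ℕ) (hq : ∀ σ, q σ + q ((starRingEnd ℂ).comp σ) = m) :
    ∃ Φ : Fin m → (F →+* ℂ) → ℤ, (∀ i, IsCMType (Φ i)) ∧ ∀ σ, ∑ i, Φ i σ = q σ := by
  classical
  have hne : ∀ σ : F →+* ℂ, (starRingEnd ℂ).comp σ ≠ σ := by
    intro σ h
    obtain ⟨f, hf⟩ := him σ
    exact hf (RingHom.congr_fun h f)
  let e := Fintype.equivFin (F →+* ℂ)
  have he : ∀ σ : F →+* ℂ, e ((starRingEnd ℂ).comp σ) ≠ e σ := fun σ h => hne σ (e.injective h)
  refine ⟨fun i σ => if e σ < e ((starRingEnd ℂ).comp σ) then (if (i : ℕ) < q σ then 1 else 0)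
    else (if (i : ℕ) < q ((starRingEnd ℂ).comp σ) then 0 else 1), ?_, ?_⟩
  · intro i σ
    constructor
    · dsimp only
      split_ifs <;> simp
    · dsimp only
      rw [conj_conj_emb]
      have h1 := he σ
      by_cases h : e σ < e ((starRingEnd ℂ).comp σ)
      · rw [if_pos h, if_neg (not_lt.2 h.le)]
        split_ifs <;> simp
      · have h2 : e ((starRingEnd ℂ).comp σ) < e σ := lt_of_le_of_ne (not_lt.1 h) h1
        rw [if_neg h, if_pos h2]
        split_ifs <;> simp
  · intro σ
    by_cases h : e σ < e ((starRingEnd ℂ).comp σ)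
    · simp only [if_pos h]
      exact count (by have := hq σ; omega)
    · simp only [if_neg h]
      have h3 : ∀ i : Fin m, (if (i : ℕ) < q ((starRingEnd ℂ).comp σ) then (0 : ℤ) else 1) =
          1 - (if (i : ℕ) < q ((starRingEnd ℂ).comp σ) then 1 else 0) := by
        intro i
        split_ifs <;> simp
      rw [Finset.sum_congr rfl fun i _ => h3 i, Finset.sum_sub_distrib,
        count (by have := hq σ; omega)]
      simp only [Finset.sum_const, Finset.card_univ, Fintype.card_fin, nsmul_eq_mul, mul_one]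
      have := hq σ
      omega

theorem real_of_one {F : Type} [Field F] (φ : (ZMod 1)ˣ → (F →+* ℂ)) (h : IsLabel F 1 φ)
    (f : F) : conj (φ 1 f) = φ 1 f := by
  have h1 := h.conductor.1.2 f
  have h2 : Complex.exp (2 * π * Complex.I / ((1 : ℕ) : ℂ)) = 1 := by
    rw [Nat.cast_one, div_one, Complex.exp_two_pi_mul_I]
  rw [h2, IntermediateField.adjoin_one, IntermediateField.mem_bot] at h1
  obtain ⟨q, hq⟩ := h1
  rw [← hq]
  simp

theorem two_le {F : Type} [Field F] (him : IsImaginary F) {d : ℕ} [NeZero d]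
    {φ : (ZMod d)ˣ → (F →+* ℂ)} (h : IsLabel F d φ) : 2 ≤ d := by
  have h0 : d ≠ 0 := NeZero.ne d
  by_contra hlt
  have h1 : d = 1 := by omega
  subst h1
  obtain ⟨f, hf⟩ := him (φ 1)
  exact hf (real_of_one φ h f)

theorem exists_eps {d : ℕ} [NeZero d] (hd : 2 ≤ d) (c : ℤ) :
    ∃ ε : ZMod d → ℚ, IsEps d (fun _ => c) ε := by
  classical
  refine ⟨fun a => (if a = 1 then (c : ℚ) else 0) + (if a = -1 then (c : ℚ) else 0), fun l => ?_⟩
  simp only [add_mul, Finset.sum_add_distrib, ite_mul, zero_mul, Finset.sum_ite_eq',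
    Finset.mem_univ, if_true, mul_one, mul_neg]
  have : Fact (1 < d) := ⟨hd⟩
  have hl : (l : ZMod d) ≠ 0 := l.ne_zero
  rw [ZMod.neg_val, if_neg hl, Nat.cast_sub (ZMod.val_lt _).le]
  ring

/-- The theorem of Koblitz and Ogus follows from Anderson's case for one CM type. -/
theorem koblitz_ogus (hS : IsSystem S) (hA : Anderson S) {F : Type} [Field F] [NumberField F]
    (hF : IsAbelianField F) (him : IsImaginary F) {d : ℕ} [NeZero d]
    {φ : (ZMod d)ˣ → (F →+* ℂ)} (hφ : IsLabel F d φ) (δ : ZMod d → ℚ)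
    (hδ : IsEps d (fun _ => 0) δ) (l : (ZMod d)ˣ) : IsAlgebraic ℚ (gam d δ l : ℂ) := by
  obtain ⟨Φ, hΦ, -⟩ := exists_types him 2 (fun _ => 1) fun _ => rfl
  obtain ⟨V, hV, hw, x, P, ht⟩ := hS.cm F hF him (Φ 0) (hΦ 0)
  obtain ⟨hex, hall⟩ := hA F hF him V hV hw x (Φ 0) P (hΦ 0) ht d φ hφ
  obtain ⟨ε, hε⟩ := hex (two_le him hφ)
  have h1 := hall ε hε l
  have h2 : IsEps d (fun l => Φ 0 (φ l)) (fun a => ε a + δ a) := by
    have := isEps_add hε hδ
    simpa using this
  have h3 := hall _ h2 l
  rw [gam_add] at h3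
  have h4 := alg_mul h1 h3.inv
  convert h4 using 1
  have h5 := gam_ne ε l
  have h6 := gam_ne δ l
  have h7 := ht.ne (φ l)
  push_cast
  field_simp

/-- The theorem of Koblitz and Ogus, at the conductor of any field, from Anderson's case. -/
theorem koblitz_ogus' (hS : IsSystem S) (hA : Anderson S) {F : Type} [Field F] {d : ℕ}
    [NeZero d] {φ : (ZMod d)ˣ → (F →+* ℂ)} (hφ : IsLabel F d φ) (δ : ZMod d → ℚ)
    (hδ : IsEps d (fun _ => 0) δ) (l : (ZMod d)ˣ) : IsAlgebraic ℚ (gam d δ l) := by
  have hd : d ≠ 0 := NeZero.ne d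
  by_cases h1 : d = 1
  · subst h1
    have : gam 1 δ l = 1 := by
      unfold gam
      refine Finset.prod_eq_one fun a _ => ?_
      have ha : a = 0 := Subsingleton.elim _ _
      rw [ha, ZMod.val_zero]
      simp
    rw [this]
    exact isAlgebraic_one
  by_cases h2 : d = 2
  · subst h2
    exact (not_two hφ).elim
  have h3 : 3 ≤ d := by omega
  obtain ⟨ψ, hψ⟩ := cf_label hφ
  have h4 := koblitz_ogus hS hA cf_abelian (cf_imaginary h3) hψ δ hδ l
  exact (isAlgebraic_algebraMap_iff (A := ℂ) (algebraMap ℝ ℂ).injective).1 h4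

theorem main (hS : IsSystem S) (hA : Anderson S) (Hyp : CyclicCase S) : GrossDeligne S := by
  classical
  intro F _ _ hF V hV x p P h d _ φ hφ
  have hG := hF.1
  have hpi : ∀ c : ℤ, ((π : ℝ) : ℂ) ^ c ≠ 0 :=
    fun c => zpow_ne_zero _ (by exact_mod_cast Real.pi_ne_zero)
  have KO := koblitz_ogus' hS hA hφ
  by_cases him : IsImaginary F
  · set c : ℤ := ∑ σ : F →+* ℂ, |p σ| with hc
    have hpc : ∀ σ, p σ ≤ c := fun σ =>
      (le_abs_self _).trans (Finset.single_le_sum (f := fun σ => |p σ|)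
        (fun τ _ => abs_nonneg _) (Finset.mem_univ σ))
    obtain ⟨Φ, hΦ, hsum⟩ := exists_types him (2 * c - V.w).toNat (fun σ => (c - p σ).toNat)
      (by
        intro σ
        have h1 := hodge_conj hS hV h σ
        have h2 := hpc σ
        have h3 := hpc ((starRingEnd ℂ).comp σ)
        omega)
    have hcm := fun i => hS.cm F hF him (Φ i) (hΦ i)
    choose A hA1 hA2 xa Pa ha using hcm
    have hA4 := fun i => hA F hF him (A i) (hA1 i) (hA2 i) (xa i) (Φ i) (Pa i) (hΦ i) (ha i)
      d φ hφ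
    have hA5 := fun i => (hA4 i).1 (two_le him hφ)
    choose εa hεa using hA5
    have hPa := fun i => (hA4 i).2 (εa i) (hεa i)
    let V' : Option (Fin (2 * c - V.w).toNat) → HdR := fun j =>
      match j with
      | none => V
      | some i => A i
    let x' : ∀ j, (V' j).I → F := fun j =>
      match j with
      | none => x
      | some i => xa i
    let p' : Option (Fin (2 * c - V.w).toNat) → (F →+* ℂ) → ℤ := fun j =>
      match j with
      | none => p
      | some i => Φ i
    let P' : Option (Fin (2 * c - V.w).toNat) → (F →+* ℂ) → ℂ := fun j =>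
      match j with
      | none => P
      | some i => Pa i
    have hV' : ∀ j, V' j ∈ S := by
      rintro (_ | i)
      · exact hV
      · exact hA1 i
    have ht' : ∀ j, IsTriple (V' j) (x' j) (p' j) (P' j) := by
      rintro (_ | i)
      · exact h
      · exact ha i
    have ht := tens_triple V' x' p' P' ht'
    have hpp : ∀ σ, p σ + ∑ i, Φ i σ = c := by
      intro σ
      rw [hsum]
      have := hpc σ
      omega
    have hp' : (fun σ => ∑ j, p' j σ) = fun _ : F →+* ℂ => c := by
      funext σ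
      rw [Fintype.sum_option]
      exact hpp σ
    rw [hp'] at ht
    have hsumε : IsEps d (fun l => ∑ i, Φ i (φ l)) (fun a => ∑ i, εa i a) :=
      isEps_sum (d := d) univ (p := fun i l => Φ i (φ l)) (ε := εa) fun i _ => hεa i
    constructor
    · intro h2d
      obtain ⟨εc, hεc⟩ := exists_eps h2d c
      refine ⟨fun a => εc a - ∑ i, εa i a, ?_⟩
      have h3 := isEps_sub hεc hsumε
      have h4 : (fun l : (ZMod d)ˣ => c - ∑ i, Φ i (φ l)) = fun l => p (φ l) := by
        funext l
        have := hpp (φ l)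
        omega
      rw [← h4]
      exact h3
    · intro ε hε l
      have h1 := const_case hS Hyp hF ⟨d, inferInstance, φ, hφ⟩ (hS.tens_mem _ V' hV') ht (φ l)
      rw [Fintype.prod_option] at h1
      have h1' : IsAlgebraic ℚ (P (φ l) * (∏ i, Pa i (φ l)) / (π : ℂ) ^ c) := h1
      have h2 : IsEps d (fun _ => c) (fun a => ε a + ∑ i, εa i a) := by
        have h3 := isEps_add hε hsumε
        have h4 : (fun l : (ZMod d)ˣ => p (φ l) + ∑ i, Φ i (φ l)) = fun _ => c := by
          funext l
          exact hpp (φ l)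
        rw [← h4]
        exact h3
      have h3 := gam_const' KO h2 l
      rw [gam_add, gam_sum] at h3
      have h4 : IsAlgebraic ℚ (∏ i, (Pa i (φ l) / (gam d (εa i) l : ℂ))) :=
        alg_prod _ _ fun i _ => hPa i l
      have h5 := alg_mul (alg_mul h1' h3.inv) h4.inv
      have h6 : (∏ i, Pa i (φ l)) ≠ 0 := Finset.prod_ne_zero_iff.2 fun i _ => (ha i).ne _
      have h7 : (∏ i, ((gam d (εa i) l : ℝ) : ℂ)) ≠ 0 :=
        Finset.prod_ne_zero_iff.2 fun i _ => gam_ne _ _
      convert h5 using 1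
      rw [Finset.prod_div_distrib]
      push_cast
      have h8 := gam_ne ε l
      have h9 := hpi c
      field_simp
  · -- the totally real case
    have hreal : ∀ σ : F →+* ℂ, (starRingEnd ℂ).comp σ = σ := by
      unfold IsImaginary at him
      push Not at him
      obtain ⟨σ₀, hσ₀⟩ := him
      intro σ
      obtain ⟨g, rfl⟩ := exists_em σ₀ σ
      ext f
      exact hσ₀ (g f)
    have hp : ∀ σ, p σ = p (φ 1) := by
      intro σ
      have h1 := hodge_conj hS hV h σ
      have h2 := hodge_conj hS hV h (φ 1)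
      rw [hreal] at h1 h2
      omega
    have hp' : p = fun _ => p (φ 1) := funext hp
    have ht : IsTriple V x (fun _ => p (φ 1)) P := hp' ▸ h
    constructor
    · intro h2d
      obtain ⟨εc, hεc⟩ := exists_eps h2d (p (φ 1))
      refine ⟨εc, fun l => ?_⟩
      show (d : ℚ) * ((p (φ l) : ℤ) : ℚ) = _
      rw [hp (φ l)]
      exact hεc l
    · intro ε hε l
      have h1 := const_case hS Hyp hF ⟨d, inferInstance, φ, hφ⟩ hV ht (φ l)
      have h2 : IsEps d (fun _ => p (φ 1)) ε := by
        intro l'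
        rw [← hp (φ l')]
        exact hε l'
      have h3 := gam_const' KO h2 l
      have h4 := alg_mul h1 h3.inv
      convert h4 using 1
      have h8 := gam_ne ε l
      have h9 := hpi (p (φ 1))
      field_simp

theorem anderson_of (h : GrossDeligne S) : Anderson S :=
  fun F _ _ hF _ V hV _ x Φ P _ ht => h F hF V hV x Φ P ht

theorem cyclic_of (hS : IsSystem S) (h : GrossDeligne S) : CyclicCase S := by
  intro F _ _ hG hc him hlab V hV x c P ht
  have hab : IsAbelianField F :=
    ⟨hG, fun a b => isMulCommutative_iff.1 (IsCyclic.isMulCommutative (α := F ≃ₐ[ℚ] F)) a b⟩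
  obtain ⟨d, hd, φ, hφ⟩ := hlab
  have KO := koblitz_ogus' hS (anderson_of h) hφ
  obtain ⟨hex, hall⟩ := h F hab V hV x (fun _ => c) P ht d φ hφ
  obtain ⟨ε, hε⟩ := hex (two_le him hφ)
  refine ⟨φ 1, ?_⟩
  have h1 := hall ε hε 1
  have h2 := gam_const' KO hε 1
  have h3 := alg_mul h1 h2
  convert h3 using 1
  have h8 := gam_ne ε 1
  field_simp

/-- The Gross–Deligne conjecture is equivalent to the conjunction of Anderson's case and of the
existence of one good period for each space of Hodge classes with multiplication by an imaginary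
cyclic field. -/
theorem equiv (hS : IsSystem S) : GrossDeligne S ↔ Anderson S ∧ CyclicCase S :=
  ⟨fun h => ⟨anderson_of h, cyclic_of hS h⟩, fun h => main hS h.1 h.2⟩

end R912.GD
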