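import Pool.Agent.R912.GD.Trip

/-! # The norm of a triple to a subfield -/

open scoped ComplexConjugate Real

namespace R912.GD

open Finset

variable {F : Type} [Field F] [NumberField F]

/-- The embedding `σ ∘ g`. -/
abbrev em (σ : F →+* ℂ) (g : F ≃ₐ[ℚ] F) : F →+* ℂ := σ.comp (g : F →+* F)

/-- The trace to the field fixed by `K`. -/
noncomputable def tr (K : Subgroup (F ≃ₐ[ℚ] F)) [Fintype K] :
    F →ₗ[ℚ] IntermediateField.fixedField K where
  toFun f := ⟨∑ g : K, (g : F ≃ₐ[ℚ] F) f, by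
    rw [IntermediateField.mem_fixedField_iff]
    intro s hs
    rw [map_sum]
    refine Fintype.sum_equiv (Equiv.mulLeft (⟨s, hs⟩ : K)) _ _ fun g => ?_
    rfl⟩
  map_add' a b := by
    ext
    simp [Finset.sum_add_distrib]
  map_smul' r a := by
    apply Subtype.ext
    show ∑ g : K, (g : F ≃ₐ[ℚ] F) (r • a) = r • ∑ g : K, (g : F ≃ₐ[ℚ] F) a
    rw [Finset.smul_sum]
    exact Finset.sum_congr rfl fun g _ => (g : F ≃ₐ[ℚ] F).toLinearMap.map_smul r a

theorem coe_tr (K : Subgroup (F ≃ₐ[ℚ] F)) [Fintype K] (f : F) :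
    ((tr K f : IntermediateField.fixedField K) : F) = ∑ g : K, (g : F ≃ₐ[ℚ] F) f := rfl

theorem tr_surjective (K : Subgroup (F ≃ₐ[ℚ] F)) [Fintype K] :
    Function.Surjective (tr K) := by
  intro z
  refine ⟨(Fintype.card K : ℚ)⁻¹ • (z : F), ?_⟩
  apply Subtype.ext
  rw [coe_tr]
  have h : ∀ g : K, (g : F ≃ₐ[ℚ] F) ((Fintype.card K : ℚ)⁻¹ • (z : F)) =
      (Fintype.card K : ℚ)⁻¹ • (z : F) := by
    intro g
    have h1 := (g : F ≃ₐ[ℚ] F).toLinearMap.map_smul ((Fintype.card K : ℚ)⁻¹) (z : F)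
    have h2 : (g : F ≃ₐ[ℚ] F).toLinearMap (z : F) = z :=
      (IntermediateField.mem_fixedField_iff _ _).1 z.2 g g.2
    rw [h2] at h1
    exact h1
  rw [Finset.sum_congr rfl fun g _ => h g, Finset.sum_const, Finset.card_univ,
    ← Nat.cast_smul_eq_nsmul ℚ, smul_smul, mul_inv_cancel₀, one_smul]
  exact_mod_cast Fintype.card_ne_zero

theorem norm_triple {V : HdR} {x : V.I → F} {c : ℤ} {P : (F →+* ℂ) → ℂ}
    (h : IsTriple V x (fun _ => c) P) (K : Subgroup (F ≃ₐ[ℚ] F)) [Fintype K]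
    (σ₀ : F →+* ℂ) :
    ∃ (y : (tens fun _ : K => V).I → IntermediateField.fixedField K)
      (Q : (IntermediateField.fixedField K →+* ℂ) → ℂ),
      IsTriple (tens fun _ : K => V) y (fun _ => ∑ _t : K, c) Q ∧
        Q (σ₀.comp (algebraMap (IntermediateField.fixedField K) F)) =
          ∏ t : K, P (em σ₀ t) := by
  classical
  set E := IntermediateField.fixedField K with hE
  let ext : (E →+* ℂ) → (F →+* ℂ) := fun s =>
    if s = σ₀.comp (algebraMap E F) then σ₀ else NumberField.ComplexEmbedding.lift F s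
  have hext : ∀ s : E →+* ℂ, (ext s).comp (algebraMap E F) = s := by
    intro s
    by_cases hs : s = σ₀.comp (algebraMap E F)
    · simp only [ext, if_pos hs]
      exact hs.symm
    · simp only [ext, if_neg hs]
      exact NumberField.ComplexEmbedding.lift_comp_algebraMap F s
  have hext0 : ext (σ₀.comp (algebraMap E F)) = σ₀ := by simp [ext]
  have hext' : ∀ (s : E →+* ℂ) (z : E), s z = ext s (z : F) := by
    intro s z
    conv_lhs => rw [← hext s]
    rfl
  let y0 : (K → V.I) → F := fun k => ∏ t : K, (t : F ≃ₐ[ℚ] F) (x (k t))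
  have hy0 : ∀ (σ : F →+* ℂ) (k : K → V.I), σ (∑ g : K, (g : F ≃ₐ[ℚ] F) (y0 k)) =
      ∑ g : K, ∏ t : K, em σ ((g : F ≃ₐ[ℚ] F) * t) (x (k t)) := by
    intro σ k
    rw [map_sum]
    refine Finset.sum_congr rfl fun g _ => ?_
    simp only [y0, map_prod]
    rfl
  have hspan0 : Submodule.span ℚ (Set.range y0) = ⊤ := by
    refine span_prod (J := K) (I := fun _ => V.I) (fun t i => (t : F ≃ₐ[ℚ] F) (x i)) fun t => ?_
    exact (twist_triple h t).span
  refine ⟨fun k => tr K (y0 k), fun s => ∏ t : K, P (em (ext s) t), ⟨?_, ?_, ?_, ?_⟩, ?_⟩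
  · have h1 : Submodule.span ℚ ((tr K) '' (Set.range y0)) = ⊤ := by
      rw [← Submodule.map_span, hspan0, Submodule.map_top]
      exact LinearMap.range_eq_top.2 (tr_surjective K)
    rw [eq_top_iff, ← h1]
    refine Submodule.span_mono ?_
    rintro _ ⟨_, ⟨k, rfl⟩, rfl⟩
    exact ⟨k, rfl⟩
  · intro s
    have e : (fun k : K → V.I => s (tr K (y0 k))) =
        ∑ g : K, fun k : K → V.I => ∏ t : K, em (ext s) ((g : F ≃ₐ[ℚ] F) * t) (x (k t)) := by
      funext k
      rw [hext' s, coe_tr, hy0, Finset.sum_apply]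
    have h2 : (∑ g : K, fun k : K → V.I =>
        ∏ t : K, em (ext s) ((g : F ≃ₐ[ℚ] F) * t) (x (k t))) ∈
        (tens fun _ : K => V).hodge (∑ _t : K, c) := by
      refine Submodule.sum_mem _ fun g _ => ?_
      exact mem_tens_hodge (fun _ : K => V) _ (fun _ => c)
        (fun t i => em (ext s) ((g : F ≃ₐ[ℚ] F) * t) (x i)) (fun t => h.hodge _) rfl
    exact e ▸ h2
  · intro s
    have e : (fun k : K → V.I => (∏ t : K, P (em (ext s) t)) * s (tr K (y0 k))) =
        ∑ g : K, fun k : K → V.I => ∏ t : K, P (em (ext s) ((g : F ≃ₐ[ℚ] F) * t)) *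
          em (ext s) ((g : F ≃ₐ[ℚ] F) * t) (x (k t)) := by
      funext k
      rw [hext' s, coe_tr, hy0, Finset.sum_apply, Finset.mul_sum]
      refine Finset.sum_congr rfl fun g _ => ?_
      rw [Finset.prod_mul_distrib]
      congr 1
      exact (Fintype.prod_equiv (Equiv.mulLeft g) (fun t : K => P (em (ext s)
        ((g : F ≃ₐ[ℚ] F) * t))) (fun t : K => P (em (ext s) t)) fun t => rfl).symm
    have h2 : (∑ g : K, fun k : K → V.I => ∏ t : K, P (em (ext s) ((g : F ≃ₐ[ℚ] F) * t)) *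
          em (ext s) ((g : F ≃ₐ[ℚ] F) * t) (x (k t))) ∈ (tens fun _ : K => V).dR := by
      refine Submodule.sum_mem _ fun g _ => ?_
      exact mem_tens_dR (fun _ : K => V) (fun t i => P (em (ext s) ((g : F ≃ₐ[ℚ] F) * t)) *
        em (ext s) ((g : F ≃ₐ[ℚ] F) * t) (x i)) (fun t => h.dR _)
    exact e ▸ h2
  · intro s
    exact Finset.prod_ne_zero_iff.2 fun t _ => h.ne _
  · show ∏ t : K, P (em (ext (σ₀.comp (algebraMap E F))) t) = _
    rw [hext0]

end R912.GD
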