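import Pool.Agent.R912.GD.Defs
import Pool.Agent.R912.GD.Exp

/-! # Operations on admissible triples -/

open scoped ComplexConjugate Real

namespace R912.GD

open Finset

variable {F : Type} [Field F] [NumberField F]

theorem map_span_top (x : Set F) (h : Submodule.span ℚ x = ⊤) (f : F →ₗ[ℚ] F)
    (hf : Function.Surjective f) : Submodule.span ℚ (f '' x) = ⊤ := by
  rw [← Submodule.map_span, h, Submodule.map_top]
  exact LinearMap.range_eq_top.2 hf

/-- The products of the coordinates of finitely many spanning vectors span. -/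
theorem span_prod {J : Type} [Fintype J] [Nonempty J] {I : J → Type} (x : ∀ j, I j → F)
    (h : ∀ j, Submodule.span ℚ (Set.range (x j)) = ⊤) :
    Submodule.span ℚ (Set.range fun k : ∀ j, I j => ∏ j, x j (k j)) = ⊤ := by
  classical
  have hex : ∀ j, ∃ i, x j i ≠ 0 := by
    intro j
    by_contra hne
    push Not at hne
    have h1 : Submodule.span ℚ (Set.range (x j)) = ⊥ := by
      rw [Submodule.span_eq_bot]
      rintro _ ⟨i, rfl⟩
      exact hne i
    rw [h j] at h1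
    have h2 : (1 : F) ∈ (⊤ : Submodule ℚ F) := trivial
    rw [h1] at h2
    exact one_ne_zero ((Submodule.mem_bot ℚ).1 h2)
  choose k0 hk0 using hex
  obtain ⟨j0⟩ := ‹Nonempty J›
  set c : F := ∏ j ∈ univ.erase j0, x j (k0 j) with hc
  have hc0 : c ≠ 0 := Finset.prod_ne_zero_iff.2 fun j _ => hk0 j
  have h2 : Submodule.span ℚ ((LinearMap.mulRight ℚ c) '' (Set.range (x j0))) = ⊤ := by
    refine map_span_top _ (h j0) _ fun y => ⟨y / c, ?_⟩
    simp [hc0]
  rw [eq_top_iff, ← h2]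
  refine Submodule.span_mono ?_
  rintro _ ⟨_, ⟨i, rfl⟩, rfl⟩
  refine ⟨Function.update k0 j0 i, ?_⟩
  show ∏ j, x j (Function.update k0 j0 i j) = (LinearMap.mulRight ℚ c) (x j0 i)
  rw [LinearMap.mulRight_apply, ← Finset.mul_prod_erase univ _ (Finset.mem_univ j0)]
  congr 1
  · simp
  · refine Finset.prod_congr rfl fun j hj => ?_
    rw [Function.update_of_ne (Finset.ne_of_mem_erase hj)]

theorem mem_tens_hodge {J : Type} [Fintype J] (V : J → HdR) (q : ℤ) (p : J → ℤ)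
    (u : ∀ j, (V j).I → ℂ) (h : ∀ j, u j ∈ (V j).hodge (p j)) (hq : ∑ j, p j = q) :
    (fun k : ∀ j, (V j).I => ∏ j, u j (k j)) ∈ (tens V).hodge q := by
  show _ ∈ Submodule.span ℂ {v : (∀ j, (V j).I) → ℂ |
    ∃ (p : J → ℤ) (u : ∀ j, (V j).I → ℂ), (∀ j, u j ∈ (V j).hodge (p j)) ∧ ∑ j, p j = q ∧
      v = fun k => ∏ j, u j (k j)}
  exact Submodule.subset_span ⟨p, u, h, hq, rfl⟩

theorem mem_tens_dR {J : Type} [Fintype J] (V : J → HdR)
    (u : ∀ j, (V j).I → ℂ) (h : ∀ j, u j ∈ (V j).dR) :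
    (fun k : ∀ j, (V j).I => ∏ j, u j (k j)) ∈ (tens V).dR := by
  show _ ∈ Submodule.span (algebraicClosure ℚ ℂ) {v : (∀ j, (V j).I) → ℂ |
    ∃ u : ∀ j, (V j).I → ℂ, (∀ j, u j ∈ (V j).dR) ∧ v = fun k => ∏ j, u j (k j)}
  exact Submodule.subset_span ⟨u, h, rfl⟩

theorem tens_triple {J : Type} [Fintype J] [Nonempty J] (V : J → HdR) (x : ∀ j, (V j).I → F)
    (p : J → (F →+* ℂ) → ℤ) (P : J → (F →+* ℂ) → ℂ)
    (h : ∀ j, IsTriple (V j) (x j) (p j) (P j)) :
    IsTriple (tens V) (fun k : ∀ j, (V j).I => ∏ j, x j (k j)) (fun σ => ∑ j, p j σ)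
      (fun σ => ∏ j, P j σ) where
  span := span_prod x fun j => (h j).span
  hodge σ := by
    have h1 := mem_tens_hodge V (∑ j, p j σ) (fun j => p j σ) (fun j i => σ (x j i))
      (fun j => (h j).hodge σ) rfl
    have h2 : (fun k : ∀ j, (V j).I => σ (∏ j, x j (k j))) =
        fun k : ∀ j, (V j).I => ∏ j, σ (x j (k j)) := by
      funext k
      exact map_prod σ _ _
    exact h2 ▸ h1
  dR σ := by
    have h1 := mem_tens_dR V (fun j i => P j σ * σ (x j i)) (fun j => (h j).dR σ)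
    have h2 : (fun k : ∀ j, (V j).I => (∏ j, P j σ) * σ (∏ j, x j (k j))) =
        fun k : ∀ j, (V j).I => ∏ j, P j σ * σ (x j (k j)) := by
      funext k
      rw [map_prod, Finset.prod_mul_distrib]
    exact h2 ▸ h1
  ne σ := Finset.prod_ne_zero_iff.2 fun j _ => (h j).ne σ

/-- The triple `(H, F, ι ∘ g)`. -/
theorem twist_triple {V : HdR} {x : V.I → F} {p : (F →+* ℂ) → ℤ} {P : (F →+* ℂ) → ℂ}
    (h : IsTriple V x p P) (g : F ≃ₐ[ℚ] F) :
    IsTriple V (fun k => g (x k)) (fun σ => p (σ.comp (g : F →+* F)))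
      (fun σ => P (σ.comp (g : F →+* F))) where
  span := by
    have := map_span_top _ h.span g.toLinearMap g.surjective
    rw [← this]
    congr 1
    ext z
    constructor
    · rintro ⟨k, rfl⟩
      exact ⟨x k, ⟨k, rfl⟩, rfl⟩
    · rintro ⟨_, ⟨k, rfl⟩, rfl⟩
      exact ⟨k, rfl⟩
  hodge σ := h.hodge (σ.comp (g : F →+* F))
  dR σ := h.dR (σ.comp (g : F →+* F))
  ne σ := h.ne _

theorem triple_ne_zero {V : HdR} {x : V.I → F} {p : (F →+* ℂ) → ℤ} {P : (F →+* ℂ) → ℂ}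
    (h : IsTriple V x p P) (σ : F →+* ℂ) : (fun k => σ (x k)) ≠ 0 := by
  intro h0
  have h1 : Submodule.span ℚ (Set.range x) = ⊥ := by
    rw [Submodule.span_eq_bot]
    rintro _ ⟨i, rfl⟩
    have := congrFun h0 i
    exact (map_eq_zero σ).1 this
  rw [h.span] at h1
  have h2 : (1 : F) ∈ (⊤ : Submodule ℚ F) := trivial
  rw [h1] at h2
  exact one_ne_zero ((Submodule.mem_bot ℚ).1 h2)

theorem alg_embedding (σ : F →+* ℂ) (f : F) : IsAlgebraic ℚ (σ f) := by
  have h : IsAlgebraic ℚ f := Algebra.IsAlgebraic.isAlgebraic f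
  exact h.algHom (RingHom.toRatAlgHom σ)

/-- Expansion of `σ x` over a basis of `F`. -/
theorem expand {I : Type} (x : I → F) (σ : F →+* ℂ) :
    (fun k => σ (x k)) = ∑ i, σ (Module.finBasis ℚ F i) •
      (fun k => (((Module.finBasis ℚ F).repr (x k) i : ℚ) : ℂ)) := by
  funext k
  rw [Finset.sum_apply]
  conv_lhs => rw [← (Module.finBasis ℚ F).sum_repr (x k)]
  rw [map_sum]
  refine Finset.sum_congr rfl fun i _ => ?_
  rw [Algebra.smul_def, map_mul, Pi.smul_apply, smul_eq_mul, mul_comm]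
  congr 1
  have : (σ.comp (algebraMap ℚ F)) = Rat.castHom ℂ := Subsingleton.elim _ _
  have h2 := congrArg (fun r : ℚ →+* ℂ => r ((Module.finBasis ℚ F).repr (x k) i)) this
  exact h2

theorem alg_form {V : HdR} {B : (V.I → ℂ) →ₗ[ℂ] (V.I → ℂ) →ₗ[ℂ] ℂ} (hB : IsPolarization V B)
    (x : V.I → F) (σ τ : F →+* ℂ) :
    IsAlgebraic ℚ (B (fun k => σ (x k)) (fun k => τ (x k))) := by
  rw [expand x σ, expand x τ, map_sum]
  refine alg_sum _ _ fun j _ => ?_
  rw [map_smul, smul_eq_mul]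
  refine alg_mul (alg_embedding τ _) ?_
  rw [map_sum, LinearMap.sum_apply]
  refine alg_sum _ _ fun i _ => ?_
  rw [map_smul, LinearMap.smul_apply, smul_eq_mul]
  refine alg_mul (alg_embedding σ _) ?_
  obtain ⟨q, hq⟩ := hB.rational (fun k => (Module.finBasis ℚ F).repr (x k) i)
    (fun k => (Module.finBasis ℚ F).repr (x k) j)
  rw [hq]
  exact isAlgebraic_algebraMap (A := ℂ) q

variable {S : Set HdR}

/-- The period relation `P_σ P_σ̄ ∼ π ^ w`. -/
theorem period_conj (hS : IsSystem S) {V : HdR} (hV : V ∈ S) {x : V.I → F}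
    {p : (F →+* ℂ) → ℤ} {P : (F →+* ℂ) → ℂ} (h : IsTriple V x p P) (σ : F →+* ℂ) :
    IsAlgebraic ℚ (P σ * P ((starRingEnd ℂ).comp σ) / (π : ℂ) ^ V.w) := by
  obtain ⟨B, hB⟩ := hS.polarization V hV
  set τ : F →+* ℂ := (starRingEnd ℂ).comp σ with hτ
  have h1 : B (fun k => σ (x k)) (fun k => τ (x k)) ≠ 0 :=
    hB.nonzero (p σ) _ (h.hodge σ) (triple_ne_zero h σ)
  have h2 := hB.deRham _ (h.dR σ) _ (h.dR τ)
  have h3 : B (fun k => P σ * σ (x k)) (fun k => P τ * τ (x k)) =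
      P σ * P τ * B (fun k => σ (x k)) (fun k => τ (x k)) := by
    have e1 : (fun k => P σ * σ (x k)) = P σ • fun k => σ (x k) := rfl
    have e2 : (fun k => P τ * τ (x k)) = P τ • fun k => τ (x k) := rfl
    rw [e1, e2, map_smul, map_smul, LinearMap.smul_apply, smul_eq_mul, smul_eq_mul]
    ring
  rw [h3] at h2
  have h4 := (alg_form hB x σ τ).inv
  have h5 := alg_mul h2 h4
  convert h5 using 1
  field_simp

theorem hodge_conj (hS : IsSystem S) {V : HdR} (hV : V ∈ S) {x : V.I → F}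
    {p : (F →+* ℂ) → ℤ} {P : (F →+* ℂ) → ℂ} (h : IsTriple V x p P) (σ : F →+* ℂ) :
    p σ + p ((starRingEnd ℂ).comp σ) = V.w := by
  set τ : F →+* ℂ := (starRingEnd ℂ).comp σ with hτ
  have h1 := hS.conj_mem V hV (p σ) _ (h.hodge σ)
  have h2 := hS.disjoint V hV _ _ _ (h.hodge τ) h1 (triple_ne_zero h τ)
  rw [h2]
  ring

end R912.GD
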